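import Pool.Agent.W809.ZQ.Stm

/-!
# Project ZQ, part TR
-/

set_option autoImplicit false

open Set Filter Topology

namespace Pool.Agent.W692.ZQ

open Pool.Agent.W809.ZQ

section
open scoped Matrix.Norms.Operator

theorem continuous_exp (n : ℕ) : Continuous (NormedSpace.exp : Mt n → Mt n) :=
  NormedSpace.exp_continuous

end

theorem continuous_PE {n d : ℕ} (Y : Fin d → Mt n) : Continuous (PE Y) := by
  have h : PE Y = fun t : Fin d → ℝ => ((List.finRange d).map
      (fun j => NormedSpace.exp (t j • Y j))).prod := by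
    funext t
    unfold PE
    rw [List.ofFn_eq_map]
  rw [h]
  apply continuous_list_prod
  intro j _
  exact (continuous_exp n).comp ((continuous_apply j).smul continuous_const)

theorem PE_small {n d : ℕ} (Y : Fin d → Mt n) (O : Set (U n)) (hO : O ∈ 𝓝 (1 : U n)) :
    ∃ ε > (0 : ℝ), ∀ t : Fin d → ℝ, (∀ j, |t j| < ε) → ∀ u : U n, (u : Mt n) = PE Y t → u ∈ O := by
  rw [mem_nhds_subtype] at hO
  obtain ⟨V, hV, hVO⟩ := hO
  have h1 : V ∈ 𝓝 (PE Y 0) := by
    rw [PE_zero]
    exact hV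
  have h2 := (continuous_PE Y).continuousAt.preimage_mem_nhds h1
  rw [Metric.mem_nhds_iff] at h2
  obtain ⟨ε, hε, h3⟩ := h2
  refine ⟨ε, hε, fun t ht u hu => hVO ?_⟩
  have h4 : t ∈ Metric.ball (0 : Fin d → ℝ) ε := by
    rw [mem_ball_zero_iff, pi_norm_lt_iff hε]
    exact ht
  have h5 : PE Y t ∈ V := h3 h4
  show (u : Mt n) ∈ V
  rw [hu]
  exact h5

theorem fin_family {M : Type} [AddCommGroup M] [Module ℝ M] (S : Finset M) :
    ∃ (d : ℕ) (Y : Fin d → M), Set.range Y = (S : Set M) := by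
  refine ⟨S.card, fun i => (S.equivFin.symm i : M), ?_⟩
  ext x
  constructor
  · rintro ⟨i, rfl⟩
    exact (S.equivFin.symm i).2
  · intro hx
    exact ⟨S.equivFin ⟨x, hx⟩, by simp⟩

theorem conj_span {n : ℕ} (C : Subgroup (U n)) (g : U n) (hg : g ∈ closure (C : Set (U n)))
    (X : Mt n) (hX : X ∈ Submodule.span ℝ (LL C)) :
    (g : Mt n) * X * ((g⁻¹ : U n) : Mt n) ∈ Submodule.span ℝ (LL C) := by
  have h1 : ∀ g ∈ C, ∀ X ∈ Submodule.span ℝ (LL C),
      (g : Mt n) * X * ((g⁻¹ : U n) : Mt n) ∈ Submodule.span ℝ (LL C) := by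
    intro g hg X hX
    induction hX using Submodule.span_induction with
    | mem x hx => exact Submodule.subset_span (LL_conj hx hg)
    | zero => rw [mul_zero, zero_mul]; exact Submodule.zero_mem _
    | add x y _ _ hx hy => rw [mul_add, add_mul]; exact Submodule.add_mem _ hx hy
    | smul a x _ hx =>
      rw [mul_smul_comm, smul_mul_assoc]; exact Submodule.smul_mem _ a hx
  have h2 : IsClosed {g : U n | (g : Mt n) * X * ((g⁻¹ : U n) : Mt n) ∈
      Submodule.span ℝ (LL C)} := by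
    have h3 : IsClosed ((Submodule.span ℝ (LL C) : Submodule ℝ (Mt n)) : Set (Mt n)) :=
      Submodule.closed_of_finiteDimensional _
    have h4 : Continuous (fun g : U n => (g : Mt n) * X * ((g⁻¹ : U n) : Mt n)) :=
      (continuous_subtype_val.mul continuous_const).mul
        (continuous_subtype_val.comp continuous_inv)
    exact h3.preimage h4
  have h5 : closure (C : Set (U n)) ⊆ {g : U n | (g : Mt n) * X * ((g⁻¹ : U n) : Mt n) ∈
      Submodule.span ℝ (LL C)} := closure_minimal (fun g hg => h1 g hg X hX) h2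
  exact h5 hg

theorem tr (hADD : S_ADD) (hSPLIT : S_SPLIT) (hLC : S_LC) : S_TR := by
  intro n C O hO
  set N : Subgroup (U n) := C.topologicalClosure with hNdef
  have hN : IsClosed (N : Set (U n)) := C.isClosed_topologicalClosure
  have hNc : (N : Set (U n)) = closure (C : Set (U n)) := C.topologicalClosure_coe
  have hCN : C ≤ N := C.le_topologicalClosure
  set m : Submodule ℝ (Mt n) := Submodule.span ℝ (LL C) with hm
  have hmN : m ≤ LS hADD N hN := Submodule.span_le.2 (fun X hX => LL_mono hCN hX)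
  have hconj : ∀ g ∈ N, ∀ X ∈ m, (g : Mt n) * X * ((g⁻¹ : U n) : Mt n) ∈ m := by
    intro g hg X hX
    refine conj_span C g ?_ X hX
    rw [← hNc]
    exact hg
  let w : Submodule ℝ (Mt n) :=
    { carrier := {W | W ∈ LL N ∧ ∀ X ∈ m, X * W = W * X}
      add_mem' := by
        rintro a b ⟨ha, ha'⟩ ⟨hb, hb'⟩
        refine ⟨hADD n N hN a ha b hb, fun X hX => ?_⟩
        rw [mul_add, add_mul, ha' X hX, hb' X hX]
      zero_mem' := ⟨LL_zero N, fun X _ => by rw [mul_zero, zero_mul]⟩
      smul_mem' := by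
        rintro s a ⟨ha, ha'⟩
        refine ⟨LL_smul ha s, fun X hX => ?_⟩
        rw [mul_smul_comm, smul_mul_assoc, ha' X hX] }
  have hw : ∀ W, W ∈ w ↔ W ∈ LL N ∧ ∀ X ∈ m, X * W = W * X := fun W => Iff.rfl
  -- the finite families
  obtain ⟨S₁, hS₁, hS₁'⟩ := (Submodule.fg_span_iff_fg_span_finset_subset (R := ℝ) (LL C)).1
    (IsNoetherian.noetherian (Submodule.span ℝ (LL C)))
  obtain ⟨S₂, hS₂⟩ := (IsNoetherian.noetherian w : w.FG)
  obtain ⟨d, Y, hY⟩ := fin_family S₁
  obtain ⟨e, W, hW⟩ := fin_family S₂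
  have hYC : ∀ j, Y j ∈ LL C := fun j => hS₁ (hY ▸ Set.mem_range_self j)
  have hWw : ∀ j, W j ∈ w := fun j => by
    rw [← hS₂]
    exact Submodule.subset_span (hW ▸ Set.mem_range_self j)
  obtain ⟨ε, hε, hsm⟩ := PE_small Y O hO
  obtain ⟨O', hO', hlc⟩ := hLC n N hN (d + e) (Fin.append Y W)
    (by
      intro j
      refine Fin.addCases (fun i => ?_) (fun i => ?_) j
      · rw [Fin.append_left]; exact LL_mono hCN (hYC i)
      · rw [Fin.append_right]; exact ((hw _).1 (hWw i)).1)
    (by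
      intro Z hZ
      obtain ⟨Y', hY', W', hW', hsum, hcomm⟩ := hSPLIT n N hN m (fun X hX => hmN hX) hconj Z hZ
      rw [hsum]
      apply Submodule.add_mem
      · have h1 : m ≤ Submodule.span ℝ (Set.range (Fin.append Y W)) := by
          rw [hm, hS₁', ← hY]
          apply Submodule.span_mono
          rintro x ⟨i, rfl⟩
          exact ⟨Fin.castAdd e i, Fin.append_left _ _ _⟩
        exact h1 hY'
      · have h1 : w ≤ Submodule.span ℝ (Set.range (Fin.append Y W)) := by
          rw [← hS₂, ← hW]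
          apply Submodule.span_mono
          rintro x ⟨i, rfl⟩
          exact ⟨Fin.natAdd d i, Fin.append_right _ _ _⟩
        exact h1 ((hw _).2 ⟨hW', hcomm⟩))
    ε hε
  refine ⟨O', hO', fun g hg hgO => ?_⟩
  have hgN : g ∈ N := by
    have : g ∈ (N : Set (U n)) := by rw [hNc]; exact hg
    exact this
  obtain ⟨t, ht, hgt⟩ := hlc g hgN hgO
  rw [PE_append] at hgt
  obtain ⟨c, hcC, hc⟩ := PE_mem hYC (fun i => t (Fin.castAdd e i))
  refine ⟨c, hcC, hsm _ (fun j => ht _) c hc, fun X hX => ?_⟩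
  have hcg : ((c⁻¹ * g : U n) : Mt n) = PE W (fun i => t (Fin.natAdd d i)) := by
    have h1 : ((c⁻¹ : U n) : Mt n) * (c : Mt n) = 1 := by
      rw [← Submonoid.coe_mul, inv_mul_cancel]; rfl
    rw [Submonoid.coe_mul, hgt, ← hc, ← mul_assoc, h1, one_mul]
  rw [hcg]
  have h2 : Commute (PE W (fun i => t (Fin.natAdd d i))) X := by
    apply PE_commute
    intro j
    exact (((hw _).1 (hWw j)).2 X (Submodule.subset_span hX)).symm
  exact h2

end Pool.Agent.W692.ZQ
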